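import Mathlib

set_option autoImplicit false

/-!
The 2-complexity of `10 ^ 10` is at most `39`, and not `40`; so the formula
`‖2 ^ m (2 ^ u + 2) ^ r‖_2 = m + (u + 1) r` fails for `m = 0`, `u = 3`, `r = 10`. It also fails for
`6 ^ 16` and `18 ^ 8`.
-/

namespace Pool.Agent.Results.MP_5f25aa_nt.PowersOfTen

/-- Arithmetic expressions built from copies of the integer `2` by addition and multiplication. -/
inductive TwoExpr : Type
  | two : TwoExpr
  | add : TwoExpr → TwoExpr → TwoExpr
  | mul : TwoExpr → TwoExpr → TwoExpr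

/-- The value of an expression. -/
def TwoExpr.value : TwoExpr → ℕ
  | .two => 2
  | .add a b => a.value + b.value
  | .mul a b => a.value * b.value

/-- The number of copies of `2` in an expression. -/
def TwoExpr.copies : TwoExpr → ℕ
  | .two => 1
  | .add a b => a.copies + b.copies
  | .mul a b => a.copies + b.copies

/-- The 2-complexity `‖n‖_2`: the least number of copies of `2` in an expression with value `n`. -/
noncomputable def complexity (n : ℕ) : ℕ := sInf {k : ℕ | ∃ e : TwoExpr, e.value = n ∧ e.copies = k}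

open TwoExpr

lemma complexity_le (e : TwoExpr) {n k : ℕ} (h1 : e.value = n) (h2 : e.copies = k) : complexity n ≤ k :=
  Nat.sInf_le ⟨e, h1, h2⟩

/-- `e * b * ... * b` -/
def timesPow (e b : TwoExpr) : ℕ → TwoExpr
  | 0 => e
  | q + 1 => mul (timesPow e b q) b

lemma timesPow_value (e b : TwoExpr) (q : ℕ) : (timesPow e b q).value = e.value * b.value ^ q := by
  induction q with
  | zero => simp [timesPow]
  | succ q ih => rw [timesPow, value, ih, pow_succ, mul_assoc]

lemma timesPow_copies (e b : TwoExpr) (q : ℕ) : (timesPow e b q).copies = e.copies + q * b.copies := by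
  induction q with
  | zero => simp [timesPow]
  | succ q ih => rw [timesPow, copies, ih]; ring

/-- `2 * 5 ^ 10 = 2 + 2 * 6 * 1042 * 1562` with `30` copies of `2`; here `1042 = 2 + 2 * 2 * 2 * 130`,
`1562 = 2 + 2 * 6 * 130` and `130 = 2 + 2 ^ 7`. -/
def a : TwoExpr :=
  add two (mul two (mul (add two (mul two two)) (mul (add two (mul two (mul two (mul two (add two (mul two (mul two (mul two (mul two (mul two (mul two two))))))))))) (add two (mul two (mul (add two (mul two two)) (add two (mul two (mul two (mul two (mul two (mul two (mul two two)))))))))))))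

/-- `2 * 3 ^ 16` with `32` copies of `2` -/
def b : TwoExpr :=
  add two (mul two (mul two (mul two (mul two (mul two (mul (add two (mul two (mul two (mul two (add two (mul two (mul two two))))))) (add two (mul two (mul two (add two (mul two (mul two (add two (mul two (mul two (mul two (mul two (mul two (mul two (mul two (mul two (mul two (mul two two)))))))))))))))))))))))

lemma a_value : a.value = 2 * 5 ^ 10 := by decide
lemma a_copies : a.copies = 30 := by decide
lemma b_value : b.value = 2 * 3 ^ 16 := by decide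
lemma b_copies : b.copies = 32 := by decide

/-- savings are inherited by all larger exponents -/
lemma family {g v c s : ℕ} (hs : 1 ≤ s) (e1 e2 : TwoExpr) (h1 : e1.value = g) (h1' : e1.copies = c)
    (h2 : e2.value = g ^ s) (h2' : e2.copies + 1 = v) (hv : v = s * c) (m r : ℕ) (hr : s ≤ r) :
    complexity (2 ^ m * g ^ r) + r / s ≤ m + c * r := by
  obtain ⟨q, hq⟩ : ∃ q, r / s = q + 1 := ⟨r / s - 1, by
    have := Nat.div_pos hr hs
    omega⟩
  have hrs : r = s * (q + 1) + r % s := by rw [← hq]; exact (Nat.div_add_mod r s).symm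
  set t := r % s with ht
  have hval : (timesPow (timesPow (timesPow e2 e2 q) e1 t) two m).value = 2 ^ m * g ^ r := by
    rw [timesPow_value, timesPow_value, timesPow_value, h1, h2]
    have h3 : g ^ r = g ^ s * (g ^ s) ^ q * g ^ t := by
      conv_lhs => rw [hrs]
      rw [pow_add, mul_add, pow_add, mul_one, pow_mul]
      ring
    rw [h3]
    simp only [value]
    ring
  have hcop : (timesPow (timesPow (timesPow e2 e2 q) e1 t) two m).copies + (q + 1) = m + c * r := by
    rw [timesPow_copies, timesPow_copies, timesPow_copies, h1']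
    have h4 : c * r = (q + 1) * (s * c) + t * c := by
      conv_lhs => rw [hrs]
      ring
    rw [h4, ← hv, ← h2']
    simp only [copies]
    ring
  have h5 := complexity_le _ hval rfl
  rw [hq]
  omega

/-- **Q1 is false.** `‖10 ^ 10‖_2 ≤ 39`, so the formula fails for `m = 0`, `u = 3`, `r = 10`. Moreover for all
`m`: `‖2 ^ m 10 ^ r‖_2 ≤ m + 4 r - ⌊r / 10⌋` for `r ≥ 10` (`u = 3`), `‖2 ^ m 6 ^ r‖_2 ≤ m + 3 r - ⌊r / 16⌋` for
`r ≥ 16` (`u = 2`) and `‖2 ^ m 18 ^ r‖_2 ≤ m + 5 r - ⌊r / 8⌋` for `r ≥ 8` (`u = 4`). -/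
theorem result :
    (¬ ∀ m u r : ℕ, 2 ≤ u → 1 ≤ r → complexity (2 ^ m * (2 ^ u + 2) ^ r) = m + (u + 1) * r) ∧
    complexity (2 ^ 0 * (2 ^ 3 + 2) ^ 10) ≤ 39 ∧
    (∀ m r : ℕ, 10 ≤ r → complexity (2 ^ m * (2 ^ 3 + 2) ^ r) + r / 10 ≤ m + (3 + 1) * r) ∧
    (∀ m r : ℕ, 16 ≤ r → complexity (2 ^ m * (2 ^ 2 + 2) ^ r) + r / 16 ≤ m + (2 + 1) * r) ∧
    (∀ m r : ℕ, 8 ≤ r → complexity (2 ^ m * (2 ^ 4 + 2) ^ r) + r / 8 ≤ m + (4 + 1) * r) := by
  have h3 : ∀ m r : ℕ, 10 ≤ r → complexity (2 ^ m * (2 ^ 3 + 2) ^ r) + r / 10 ≤ m + (3 + 1) * r := by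
    intro m r hr
    refine family (s := 10) (v := 40) (by norm_num) (add (mul two (mul two two)) two)
      (timesPow a two 9) (by decide) (by decide) ?_ ?_ (by norm_num) m r hr
    · rw [timesPow_value, a_value]; norm_num [value]
    · rw [timesPow_copies, a_copies]; norm_num [copies]
  have h2 : ∀ m r : ℕ, 16 ≤ r → complexity (2 ^ m * (2 ^ 2 + 2) ^ r) + r / 16 ≤ m + (2 + 1) * r := by
    intro m r hr
    refine family (s := 16) (v := 48) (by norm_num) (add (mul two two) two)
      (timesPow b two 15) (by decide) (by decide) ?_ ?_ (by norm_num) m r hr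
    · rw [timesPow_value, b_value]; norm_num [value]
    · rw [timesPow_copies, b_copies]; norm_num [copies]
  have h4 : ∀ m r : ℕ, 8 ≤ r → complexity (2 ^ m * (2 ^ 4 + 2) ^ r) + r / 8 ≤ m + (4 + 1) * r := by
    intro m r hr
    refine family (s := 8) (v := 40) (by norm_num) (add (mul two (mul two (mul two two))) two)
      (timesPow b two 7) (by decide) (by decide) ?_ ?_ (by norm_num) m r hr
    · rw [timesPow_value, b_value]; norm_num [value]
    · rw [timesPow_copies, b_copies]; norm_num [copies]
  have h39 : complexity (2 ^ 0 * (2 ^ 3 + 2) ^ 10) ≤ 39 := by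
    have := h3 0 10 le_rfl
    omega
  refine ⟨fun h => ?_, h39, h3, h2, h4⟩
  have := h 0 3 10 (by norm_num) (by norm_num)
  omega

end Pool.Agent.Results.MP_5f25aa_nt.PowersOfTen
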